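import Mathlib

/-!
# Gaps between 3-powerful numbers: decomposition and spacing
-/

set_option autoImplicit false

namespace Pool.Agent.W4helper65.P3

/-- `3`-powerful numbers -/
def P3 (n : ℕ) : Prop := 0 < n ∧ ∀ p : ℕ, Nat.Prime p → p ∣ n → p ^ 3 ∣ n

theorem p3_cube {n : ℕ} (hn : 0 < n) : P3 (n ^ 3) :=
  ⟨by positivity, fun p hp h => pow_dvd_pow_of_dvd (hp.dvd_of_dvd_pow h) 3⟩

theorem p3_left {a b : ℕ} (h : Nat.Coprime a b) (hab : P3 (a * b)) : P3 a := by
  refine ⟨Nat.pos_of_ne_zero fun h0 => ?_, fun p hp hpa => ?_⟩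
  · rw [h0, zero_mul] at hab
    exact lt_irrefl 0 hab.1
  · have h1 := hab.2 p hp (Dvd.dvd.mul_right hpa b)
    refine Nat.Coprime.dvd_of_dvd_mul_right ?_ h1
    exact Nat.Coprime.pow_left 3 (Nat.Coprime.coprime_dvd_left hpa h)

/-- every `3`-powerful number is `x³ y⁴ z⁵` -/
theorem dec (n : ℕ) (h : P3 n) : ∃ x y z : ℕ, 0 < x ∧ 0 < y ∧ 0 < z ∧
    n = x ^ 3 * (y ^ 4 * z ^ 5) := by
  induction n using Nat.recOnPosPrimePosCoprime with
  | prime_pow p e hp he =>
    have h1 : p ^ 3 ∣ p ^ e := h.2 p hp (dvd_pow_self p he.ne')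
    have h3 : 3 ≤ e := (Nat.pow_dvd_pow_iff_le_right hp.one_lt).1 h1
    have hp0 := hp.pos
    obtain ⟨q, r, hr, hqr⟩ : ∃ q r : ℕ, r < 3 ∧ e = 3 * q + r :=
      ⟨e / 3, e % 3, Nat.mod_lt _ (by norm_num), (Nat.div_add_mod e 3).symm⟩
    have : r = 0 ∨ r = 1 ∨ r = 2 := by omega
    rcases this with rfl | rfl | rfl
    · refine ⟨p ^ q, 1, 1, by positivity, one_pos, one_pos, ?_⟩
      rw [hqr, one_pow, one_pow, mul_one, mul_one, ← pow_mul]
      congr 1
      ring
    · obtain ⟨q', rfl⟩ : ∃ q', q = q' + 1 := ⟨q - 1, by omega⟩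
      refine ⟨p ^ q', p, 1, by positivity, hp0, one_pos, ?_⟩
      rw [hqr]
      ring
    · obtain ⟨q', rfl⟩ : ∃ q', q = q' + 1 := ⟨q - 1, by omega⟩
      refine ⟨p ^ q', 1, p, by positivity, one_pos, hp0, ?_⟩
      rw [hqr]
      ring
  | zero => exact absurd h.1 (lt_irrefl 0)
  | one => exact ⟨1, 1, 1, one_pos, one_pos, one_pos, by norm_num⟩
  | coprime a b _ _ hab iha ihb =>
    obtain ⟨x, y, z, hx, hy, hz, e⟩ := iha (p3_left hab h)
    obtain ⟨x', y', z', hx', hy', hz', e'⟩ := ihb (p3_left hab.symm (by rwa [mul_comm]))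
    refine ⟨x * x', y * y', z * z', by positivity, by positivity, by positivity, ?_⟩
    rw [e, e']
    ring

/-- the spacing of the approximations -/
theorem spacing {α β η : ℝ} {k l x y x' y' : ℕ} (hα : 0 < α) (hβ : 0 < β) (hk : α ^ 3 = k)
    (hl : β ^ 3 = l) (hk0 : 0 < k) (hl0 : 0 < l) (hη : η < 1)
    (h1 : 0 < β * y - α * x) (h2 : β * y - α * x ≤ η) (h1' : 0 < β * y' - α * x')
    (h2' : β * y' - α * x' ≤ η) (hy : y < y') :
    1 ≤ 7 * η * β ^ 2 * ((y' : ℝ) - y) ^ 2 := by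
  have hη0 : 0 < η := lt_of_lt_of_le h1 h2
  have hl1 : (1 : ℝ) ≤ β ^ 3 := by
    rw [hl]
    exact_mod_cast hl0
  have hβ1 : 1 ≤ β := by
    by_contra hc
    push Not at hc
    have := pow_lt_one₀ hβ.le hc (three_ne_zero)
    linarith
  set d : ℤ := (y' : ℤ) - y with hd
  set e : ℤ := (x' : ℤ) - x with he
  have hd1 : 1 ≤ d := by omega
  have hdR : ((y' : ℝ) - y) = d := by
    rw [hd]
    push_cast
    ring
  have heR : ((x' : ℝ) - x) = e := by
    rw [he]
    push_cast
    ring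
  have hd1R : (1 : ℝ) ≤ d := by exact_mod_cast hd1
  set w : ℝ := β * d - α * e with hw
  have hw2 : w = (β * y' - α * x') - (β * y - α * x) := by
    rw [hw, ← hdR, ← heR]
    ring
  have hwl : w < η := by linarith
  have hwg : -η < w := by linarith
  have hN : ((l : ℤ) * d ^ 3 - k * e ^ 3 : ℤ) =
      w * ((β * d) ^ 2 + (β * d) * (α * e) + (α * e) ^ 2) := by
    push_cast
    rw [← hk, ← hl, hw]
    ring
  have hβd : 1 ≤ β * d := by nlinarith
  by_cases h0 : (l : ℤ) * d ^ 3 - k * e ^ 3 = 0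
  · exfalso
    rw [h0] at hN
    have hq : 0 < (β * d) ^ 2 + (β * d) * (α * e) + (α * e) ^ 2 := by
      nlinarith [sq_nonneg ((β * d) + 2 * (α * e))]
    have hw0 : w = 0 := by
      have := hN.symm
      push_cast at this
      exact (mul_eq_zero.1 this).resolve_right hq.ne'
    have hbe : β * d = α * e := by linarith
    have he1 : 0 < e := by
      have h3 : 0 < α * e := by linarith
      have h4 : (0 : ℝ) < e := by
        by_contra hc
        push Not at hc
        nlinarith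
      exact_mod_cast h4
    -- natural numbers
    obtain ⟨D, hD⟩ : ∃ D : ℕ, d = D := ⟨d.toNat, by omega⟩
    obtain ⟨E, hE⟩ : ∃ E : ℕ, e = E := ⟨e.toNat, by omega⟩
    have hD0 : 0 < D := by omega
    have hE0 : 0 < E := by omega
    have hkl : l * D ^ 3 = k * E ^ 3 := by
      have : (l : ℤ) * D ^ 3 = k * E ^ 3 := by
        rw [← hD, ← hE]
        linarith
      exact_mod_cast this
    obtain ⟨g, s, t, hg, hst, hs, ht⟩ := Nat.exists_coprime' (Nat.gcd_pos_of_pos_left E hD0)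
    have hs0 : 0 < s := Nat.pos_of_ne_zero fun h => by rw [h, zero_mul] at hs; omega
    have ht0 : 0 < t := Nat.pos_of_ne_zero fun h => by rw [h, zero_mul] at ht; omega
    have hkl2 : l * s ^ 3 = k * t ^ 3 := by
      have h5 : (l * s ^ 3) * g ^ 3 = (k * t ^ 3) * g ^ 3 := by
        rw [hs, ht] at hkl
        linarith
      exact Nat.eq_of_mul_eq_mul_right (pow_pos hg 3) h5
    have htl : t ^ 3 ∣ l := by
      refine Nat.Coprime.dvd_of_dvd_mul_right (n := s ^ 3) (Nat.Coprime.pow 3 3 hst.symm) ?_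
      exact ⟨k, by rw [hkl2]; ring⟩
    obtain ⟨w0, hw0'⟩ := htl
    have hw00 : 0 < w0 := Nat.pos_of_ne_zero fun h => by rw [h, mul_zero] at hw0'; omega
    have htR : (0 : ℝ) < t := by exact_mod_cast ht0
    have hgR : (0 : ℝ) < g := by exact_mod_cast hg
    have hγ3 : (β / t) ^ 3 = w0 := by
      rw [div_pow, hl, hw0']
      push_cast
      field_simp
    have hγ1 : 1 ≤ β / t := by
      by_contra hc
      push Not at hc
      have h6 := pow_lt_one₀ (by positivity) hc (three_ne_zero)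
      rw [hγ3] at h6
      have : (1 : ℝ) ≤ w0 := by exact_mod_cast hw00
      linarith
    have hαs : α = β / t * s := by
      have h7 : β * (s * g : ℕ) = α * (t * g : ℕ) := by
        rw [← hs, ← ht]
        have : β * ((D : ℤ) : ℝ) = α * ((E : ℤ) : ℝ) := by rw [← hD, ← hE]; exact hbe
        exact_mod_cast this
      push_cast at h7
      field_simp
      nlinarith
    have h8 : β * y - α * x = β / t * (((t : ℤ) * y - s * x : ℤ) : ℝ) := by
      rw [hαs]
      push_cast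
      field_simp
    rw [h8] at h1 h2
    have h9 : 0 < (((t : ℤ) * y - s * x : ℤ) : ℝ) := by
      by_contra hc
      push Not at hc
      nlinarith
    have h10 : (1 : ℝ) ≤ (((t : ℤ) * y - s * x : ℤ) : ℝ) := by
      have : (0 : ℤ) < (t : ℤ) * y - s * x := by exact_mod_cast h9
      exact_mod_cast this
    nlinarith
  · have hN1 : (1 : ℝ) ≤ |((l : ℤ) * d ^ 3 - k * e ^ 3 : ℤ)| := by
      have := Int.one_le_abs h0
      exact_mod_cast this
    rw [hdR]
    have hae : α * e = β * d - w := by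
      rw [hw]
      ring
    rw [hae] at hN
    have habs : |((((l : ℤ) * d ^ 3 - k * e ^ 3 : ℤ)) : ℝ)| = |w| *
        |(β * d) ^ 2 + (β * d) * (β * d - w) + (β * d - w) ^ 2| := by
      rw [hN, abs_mul]
    rw [← Int.cast_abs] at habs
    rw [habs] at hN1
    have hwa : |w| ≤ η := abs_le.2 ⟨by linarith, hwl.le⟩
    have hq0 : 0 ≤ (β * d) ^ 2 + (β * d) * (β * d - w) + (β * d - w) ^ 2 := by
      nlinarith [sq_nonneg ((β * d) + 2 * (β * d - w))]
    have hq7 : (β * d) ^ 2 + (β * d) * (β * d - w) + (β * d - w) ^ 2 ≤ 7 * (β * d) ^ 2 := by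
      nlinarith
    rw [abs_of_nonneg hq0] at hN1
    calc (1 : ℝ) ≤ _ := hN1
      _ ≤ η * (7 * (β * d) ^ 2) := mul_le_mul hwa hq7 hq0 hη0.le
      _ = _ := by ring

end Pool.Agent.W4helper65.P3
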