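import Pool.Agent.W4helper65.P3.Tail

/-!
# Gaps between 3-powerful numbers: the main estimate
-/

set_option autoImplicit false

namespace Pool.Agent.W4helper65.P3

open Finset

/-- `a` is the increasing enumeration of the `3`-powerful numbers -/
def Enum (a : ℕ → ℕ) : Prop := StrictMono a ∧ ∀ n : ℕ, (∃ k : ℕ, a k = n) ↔
  (0 < n ∧ ∀ p : ℕ, Nat.Prime p → p ∣ n → p ^ 3 ∣ n)

theorem upper {a : ℕ → ℕ} (ha : Enum a) (j : ℕ) : a j ≤ (j + 1) ^ 3 := by
  have h1 : ∀ i : ℕ, ∃ c : ℕ, a c = (i + 1) ^ 3 := fun i =>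
    (ha.2 _).2 (p3_cube (Nat.succ_pos i))
  choose c hc using h1
  have hmono : StrictMono c := by
    intro i i' hi
    refine ha.1.lt_iff_lt.1 ?_
    rw [hc, hc]
    exact Nat.pow_lt_pow_left (by omega) three_ne_zero
  rw [← hc j]
  exact ha.1.monotone hmono.le_apply

/-- a cube root -/
theorem exists_root {k : ℕ} (hk : 0 < k) : ∃ α : ℝ, 0 < α ∧ α ^ 3 = k := by
  have hkR : (0 : ℝ) < k := by exact_mod_cast hk
  refine ⟨(k : ℝ) ^ (1 / 3 : ℝ), by positivity, ?_⟩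
  rw [← Real.rpow_natCast, ← Real.rpow_mul hkR.le]
  norm_num

/-- small gaps with given non-cube parts -/
theorem fiber_card {a X K : ℕ → ℕ} (ha : StrictMono a) (hK : ∀ j, 0 < K j)
    (hX : ∀ j, a j = X j ^ 3 * K j) (M : ℕ) (hup : ∀ j, a j ≤ (j + 1) ^ 3) (F : Finset ℕ)
    (u v : ℕ) (η H ν : ℝ) (hν : 0 < ν) (hη : η < 1) (hηH : H ≤ 3 * ν ^ 2 * η)
    (hF : ∀ m ∈ F, m < M ∧ K m = u ∧ K (m + 1) = v ∧ (a (m + 1) : ℝ) - a m ≤ H ∧
      ν ^ 3 ≤ (a m : ℝ)) : (F.card : ℝ) ≤ 1 + (M + 1) * Real.sqrt (7 * η) := by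
  classical
  rcases F.eq_empty_or_nonempty with h0 | ⟨m0, hm0⟩
  · rw [h0, Finset.card_empty, Nat.cast_zero]
    positivity
  obtain ⟨α, hα, hα3⟩ := exists_root (k := u) (by rw [← (hF m0 hm0).2.1]; exact hK _)
  obtain ⟨β, hβ, hβ3⟩ := exists_root (k := v) (by rw [← (hF m0 hm0).2.2.1]; exact hK _)
  have hu0 : 0 < u := by rw [← (hF m0 hm0).2.1]; exact hK _
  have hv0 : 0 < v := by rw [← (hF m0 hm0).2.2.1]; exact hK _
  have e1 : ∀ m ∈ F, (a m : ℝ) = (α * X m) ^ 3 := by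
    intro m hm
    rw [hX m, (hF m hm).2.1, mul_pow, hα3]
    push_cast
    ring
  have e2 : ∀ m ∈ F, (a (m + 1) : ℝ) = (β * X (m + 1)) ^ 3 := by
    intro m hm
    rw [hX (m + 1), (hF m hm).2.2.1, mul_pow, hβ3]
    push_cast
    ring
  have k1 : ∀ m ∈ F, 0 < β * X (m + 1) - α * X m := by
    intro m hm
    have h1 : (a m : ℝ) < a (m + 1) := by exact_mod_cast ha (Nat.lt_succ_self m)
    rw [e1 m hm, e2 m hm] at h1
    have := lt_of_pow_lt_pow_left₀ 3 (by positivity) h1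
    linarith
  have k2 : ∀ m ∈ F, β * X (m + 1) - α * X m ≤ η := by
    intro m hm
    have h1 := (hF m hm).2.2.2.1
    have h2 := (hF m hm).2.2.2.2
    rw [e1 m hm] at h1 h2
    rw [e2 m hm] at h1
    have h3 : ν ≤ α * X m := le_of_pow_le_pow_left₀ three_ne_zero (by positivity) h2
    have h4 := k1 m hm
    set A := α * X m
    set B := β * X (m + 1)
    have h5 : B ^ 3 - A ^ 3 = (B - A) * (B ^ 2 + B * A + A ^ 2) := by ring
    have h6 : 3 * ν ^ 2 ≤ B ^ 2 + B * A + A ^ 2 := by nlinarith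
    have h7 : (B - A) * (3 * ν ^ 2) ≤ 3 * ν ^ 2 * η := by
      calc (B - A) * (3 * ν ^ 2) ≤ (B - A) * (B ^ 2 + B * A + A ^ 2) :=
            mul_le_mul_of_nonneg_left h6 h4.le
        _ = B ^ 3 - A ^ 3 := h5.symm
        _ ≤ H := h1
        _ ≤ _ := hηH
    have h8 : 0 < 3 * ν ^ 2 := by positivity
    nlinarith
  have hη0 : 0 < η := lt_of_lt_of_le (k1 m0 hm0) (k2 m0 hm0)
  set s : ℝ := Real.sqrt (7 * η) with hs
  have hs0 : 0 < s := Real.sqrt_pos.2 (by positivity)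
  have hs2 : s ^ 2 = 7 * η := Real.sq_sqrt (by positivity)
  have hlt : ∀ m ∈ F, ∀ m' ∈ F, m < m' → X (m + 1) < X (m' + 1) := by
    intro m hm m' hm' hmm
    have h1 : (a (m + 1) : ℝ) < a (m' + 1) := by exact_mod_cast ha (Nat.succ_lt_succ hmm)
    rw [e2 m hm, e2 m' hm'] at h1
    have h2 := lt_of_pow_lt_pow_left₀ 3 (by positivity) h1
    have h3 := lt_of_mul_lt_mul_left h2 hβ.le
    exact_mod_cast h3
  have hgap : ∀ m ∈ F, ∀ m' ∈ F, m < m' → 1 ≤ s * β * ((X (m' + 1) : ℝ) - X (m + 1)) := by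
    intro m hm m' hm' hmm
    have h1 := spacing hα hβ hα3 hβ3 hu0 hv0 hη (k1 m hm) (k2 m hm) (k1 m' hm') (k2 m' hm')
      (hlt m hm m' hm' hmm)
    have h2 : (0 : ℝ) < (X (m' + 1) : ℝ) - X (m + 1) := by
      have : (X (m + 1) : ℝ) < X (m' + 1) := by exact_mod_cast hlt m hm m' hm' hmm
      linarith
    have h3 : (1 : ℝ) ^ 2 ≤ (s * β * ((X (m' + 1) : ℝ) - X (m + 1))) ^ 2 := by
      rw [mul_pow, mul_pow, hs2, one_pow]
      exact h1
    exact le_of_pow_le_pow_left₀ two_ne_zero (by positivity) h3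
  have hcard : F.card ≤ (Finset.range (⌊s * (M + 1)⌋₊ + 1)).card := by
    refine Finset.card_le_card_of_injOn (fun m => ⌊s * (β * X (m + 1))⌋₊) ?_ ?_
    · intro m hm
      rw [Finset.coe_range, Set.mem_Iio, Nat.lt_succ_iff]
      refine Nat.floor_le_floor (mul_le_mul_of_nonneg_left ?_ hs0.le)
      have h1 : (a (m + 1) : ℝ) ≤ ((M : ℝ) + 1) ^ 3 := by
        have h2 := hup (m + 1)
        have h3 : (m + 1 + 1) ^ 3 ≤ (M + 1) ^ 3 :=
          Nat.pow_le_pow_left (by have := (hF m hm).1; omega) 3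
        exact_mod_cast h2.trans h3
      rw [e2 m hm] at h1
      exact le_of_pow_le_pow_left₀ three_ne_zero (by positivity) h1
    · have hne : ∀ m ∈ F, ∀ m' ∈ F, m < m' →
          ⌊s * (β * X (m + 1))⌋₊ < ⌊s * (β * X (m' + 1))⌋₊ := by
        intro m hm m' hm' hmm
        have h1 := hgap m hm m' hm' hmm
        rw [Nat.lt_iff_add_one_le]
        refine Nat.le_floor ?_
        have h2 : (⌊s * (β * X (m + 1))⌋₊ : ℝ) ≤ s * (β * X (m + 1)) :=
          Nat.floor_le (by positivity)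
        push_cast
        linarith
      intro m hm m' hm' he
      by_contra hc
      rcases Nat.lt_or_gt_of_ne hc with h | h
      · exact absurd he (hne m hm m' hm' h).ne
      · exact absurd he (hne m' hm' m hm h).ne'
  rw [Finset.card_range] at hcard
  have h9 : (F.card : ℝ) ≤ (⌊s * (M + 1)⌋₊ : ℝ) + 1 := by exact_mod_cast hcard
  have h10 : (⌊s * (M + 1)⌋₊ : ℝ) ≤ s * (M + 1) := Nat.floor_le (by positivity)
  linarith

/-- the constant -/
noncomputable def W : ℝ := ∑' q, hw q + 1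

theorem W_ge : 1 ≤ W := by
  have : 0 ≤ ∑' q, hw q := tsum_nonneg hw_nonneg
  unfold W
  linarith

theorem count {a : ℕ → ℕ} (ha : Enum a) (M : ℕ) (τ : ℝ) (hτ0 : 0 < τ) (hτ1 : τ ≤ 1)
    (hMτ : 1 ≤ M * τ ^ 26) :
    (((range M).filter fun m : ℕ => (a (m + 1) : ℝ) - a m ≤ M ^ 2 * τ ^ 52).card : ℝ) ≤
      (2 + 3 * W + 2 * W ^ 2 + 4 * W ^ 3) * (M * τ ^ 3) := by
  classical
  have hW := W_ge
  have hW0 : 0 < W := by linarith
  have hM0 : (0 : ℝ) < M := by
    by_contra hc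
    push Not at hc
    have : (M : ℝ) * τ ^ 26 ≤ 0 := mul_nonpos_of_nonpos_of_nonneg hc (by positivity)
    linarith
  have hM1 : (1 : ℝ) ≤ M := by
    have : 0 < M := by exact_mod_cast hM0
    exact_mod_cast this
  have hup := upper ha
  set H : ℝ := M ^ 2 * τ ^ 52 with hH
  set S := (range M).filter fun m : ℕ => (a (m + 1) : ℝ) - a m ≤ H with hS
  have hMt : 0 < (M : ℝ) * τ ^ 3 := by positivity
  have hMt1 : 1 ≤ (M : ℝ) * τ ^ 3 := by
    refine hMτ.trans (mul_le_mul_of_nonneg_left ?_ hM0.le)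
    exact pow_le_pow_of_le_one hτ0.le hτ1 (by norm_num)
  set η : ℝ := W ^ 2 / 3 * τ ^ 46 with hη
  rcases le_or_gt 1 η with hη1 | hη1
  · have h1 : (S.card : ℝ) ≤ M := by
      have : S.card ≤ M := (Finset.card_filter_le _ _).trans (by rw [Finset.card_range])
      exact_mod_cast this
    have h2 : η ≤ W ^ 2 / 3 * τ ^ 3 := by
      rw [hη]
      exact mul_le_mul_of_nonneg_left (pow_le_pow_of_le_one hτ0.le hτ1 (by norm_num))
        (by positivity)
    have h3 : (M : ℝ) ≤ W ^ 2 / 3 * (M * τ ^ 3) := by nlinarith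
    have h4 : W ^ 2 / 3 ≤ 2 + 3 * W + 2 * W ^ 2 + 4 * W ^ 3 := by nlinarith [pow_pos hW0 3, pow_pos hW0 2]
    exact h1.trans (h3.trans (mul_le_mul_of_nonneg_right h4 hMt.le))
  -- decompositions
  have hP : ∀ j, P3 (a j) := fun j => (ha.2 (a j)).1 ⟨j, rfl⟩
  choose X Y Z hX hY hZ hdec using fun j => dec (a j) (hP j)
  set K : ℕ → ℕ := fun j => Y j ^ 4 * Z j ^ 5 with hK
  have hK0 : ∀ j, 0 < K j := fun j => Nat.mul_pos (pow_pos (hY j) 4) (pow_pos (hZ j) 5)
  have hinj : Function.Injective a := ha.1.injective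
  -- lower bound
  have hlow : ∀ m : ℕ, ((m + 1 : ℝ) / W) ^ 3 ≤ a m := by
    intro m
    obtain ⟨α, hα, hα3⟩ := exists_root (k := a m) (hP m).1
    have h1 := tail ((range (m + 1)).image a) α 1 hα.le one_pos (by
      intro n hn
      obtain ⟨j, hj, rfl⟩ := Finset.mem_image.1 hn
      refine ⟨X j, Y j, Z j, hX j, hY j, hZ j, hdec j, ?_, ?_⟩
      · rw [one_pow, mul_one]
        exact_mod_cast hK0 j
      · rw [hα3]
        have : a j ≤ a m := ha.1.monotone (by have := Finset.mem_range.1 hj; omega)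
        exact_mod_cast this)
    rw [Finset.card_image_of_injective _ hinj, Finset.card_range, one_pow, mul_one] at h1
    push_cast at h1
    rw [← hα3]
    refine pow_le_pow_left₀ (by positivity) ?_ 3
    rw [div_le_iff₀ hW0, mul_comm]
    exact h1
  -- the four parts
  set S1 := (range M).filter fun m : ℕ => (m : ℝ) < M * τ ^ 3 with hS1
  set S2 := (range M).filter fun m : ℕ => 1 ≤ (K m : ℝ) * τ ^ 39 with hS2
  set S3 := (range M).filter fun m : ℕ => 1 ≤ (K (m + 1) : ℝ) * τ ^ 39 with hS3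
  set S4 := (range M).filter fun m : ℕ => (M * τ ^ 3 ≤ (m : ℝ) ∧ (K m : ℝ) * τ ^ 39 < 1 ∧
    (K (m + 1) : ℝ) * τ ^ 39 < 1) ∧ (a (m + 1) : ℝ) - a m ≤ H with hS4
  have hsub : S ⊆ S1 ∪ (S2 ∪ (S3 ∪ S4)) := by
    intro m hm
    rw [hS, Finset.mem_filter] at hm
    simp only [Finset.mem_union, hS1, hS2, hS3, hS4, Finset.mem_filter]
    by_cases h1 : (m : ℝ) < M * τ ^ 3
    · exact Or.inl ⟨hm.1, h1⟩
    · by_cases h2 : 1 ≤ (K m : ℝ) * τ ^ 39
      · exact Or.inr (Or.inl ⟨hm.1, h2⟩)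
      · by_cases h3 : 1 ≤ (K (m + 1) : ℝ) * τ ^ 39
        · exact Or.inr (Or.inr (Or.inl ⟨hm.1, h3⟩))
        · exact Or.inr (Or.inr (Or.inr ⟨hm.1, ⟨not_lt.1 h1, not_le.1 h2, not_le.1 h3⟩, hm.2⟩))
  have hc : (S.card : ℝ) ≤ S1.card + (S2.card + (S3.card + S4.card)) := by
    have h1 := Finset.card_le_card hsub
    have h2 := Finset.card_union_le S1 (S2 ∪ (S3 ∪ S4))
    have h3 := Finset.card_union_le S2 (S3 ∪ S4)
    have h4 := Finset.card_union_le S3 S4
    exact_mod_cast h1.trans (h2.trans (by omega))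
  have c1 : (S1.card : ℝ) ≤ 2 * (M * τ ^ 3) := by
    have h1 : S1 ⊆ range (⌊(M : ℝ) * τ ^ 3⌋₊ + 1) := by
      intro m hm
      rw [hS1, Finset.mem_filter] at hm
      rw [Finset.mem_range, Nat.lt_succ_iff]
      exact Nat.le_floor hm.2.le
    have h2 := Finset.card_le_card h1
    rw [Finset.card_range] at h2
    have h3 : (S1.card : ℝ) ≤ (⌊(M : ℝ) * τ ^ 3⌋₊ : ℝ) + 1 := by exact_mod_cast h2
    have h4 := Nat.floor_le hMt.le
    linarith
  have c2 : (S2.card : ℝ) ≤ W * (M * τ ^ 3) := by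
    have h1 := tail (S2.image a) M τ hM0.le hτ0 (by
      intro n hn
      obtain ⟨j, hj, rfl⟩ := Finset.mem_image.1 hn
      rw [hS2, Finset.mem_filter] at hj
      refine ⟨X j, Y j, Z j, hX j, hY j, hZ j, hdec j, hj.2, ?_⟩
      have h2 : (j + 1) ^ 3 ≤ M ^ 3 :=
        Nat.pow_le_pow_left (by have := Finset.mem_range.1 hj.1; omega) 3
      exact_mod_cast (hup j).trans h2)
    rwa [Finset.card_image_of_injective _ hinj] at h1
  have c3 : (S3.card : ℝ) ≤ 2 * W * (M * τ ^ 3) := by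
    have hinj' : Function.Injective fun m => a (m + 1) := fun i j hij =>
      Nat.succ_injective (hinj hij)
    have h1 := tail (S3.image fun m => a (m + 1)) (M + 1) τ (by positivity) hτ0 (by
      intro n hn
      obtain ⟨j, hj, rfl⟩ := Finset.mem_image.1 hn
      rw [hS3, Finset.mem_filter] at hj
      refine ⟨X (j + 1), Y (j + 1), Z (j + 1), hX _, hY _, hZ _, hdec _, hj.2, ?_⟩
      have h2 : (j + 1 + 1) ^ 3 ≤ (M + 1) ^ 3 :=
        Nat.pow_le_pow_left (by have := Finset.mem_range.1 hj.1; omega) 3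
      exact_mod_cast (hup (j + 1)).trans h2)
    rw [Finset.card_image_of_injective _ hinj'] at h1
    change (S3.card : ℝ) ≤ W * ((M + 1) * τ ^ 3) at h1
    have h2 : ((M : ℝ) + 1) * τ ^ 3 ≤ 2 * (M * τ ^ 3) := by nlinarith [pow_pos hτ0 3]
    calc (S3.card : ℝ) ≤ W * ((M + 1) * τ ^ 3) := h1
      _ ≤ W * (2 * (M * τ ^ 3)) := mul_le_mul_of_nonneg_left h2 hW0.le
      _ = _ := by ring
  have c4 : (S4.card : ℝ) ≤ (W ^ 2 + 4 * W ^ 3) * (M * τ ^ 3) := by
    set g : ℕ → (ℕ × ℕ) × (ℕ × ℕ) := fun m => ((Y m, Z m), (Y (m + 1), Z (m + 1))) with hg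
    set I := S4.image fun m => (Y m, Z m) with hI
    set J := S4.image fun m => (Y (m + 1), Z (m + 1)) with hJ
    have hmaps : ∀ m ∈ S4, g m ∈ I ×ˢ J := fun m hm =>
      Finset.mem_product.2 ⟨Finset.mem_image_of_mem _ hm, Finset.mem_image_of_mem _ hm⟩
    have hIc := few (I := I) hτ0 (by
      intro q hq
      obtain ⟨m, hm, rfl⟩ := Finset.mem_image.1 hq
      rw [hS4, Finset.mem_filter] at hm
      exact ⟨hY m, hZ m, hm.2.1.2.1⟩)
    have hJc := few (I := J) hτ0 (by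
      intro q hq
      obtain ⟨m, hm, rfl⟩ := Finset.mem_image.1 hq
      rw [hS4, Finset.mem_filter] at hm
      exact ⟨hY _, hZ _, hm.2.1.2.2⟩)
    have hIc' : (I.card : ℝ) * τ ^ 10 ≤ W := hIc.trans (by unfold W; linarith)
    have hJc' : (J.card : ℝ) * τ ^ 10 ≤ W := hJc.trans (by unfold W; linarith)
    set ν : ℝ := M * τ ^ 3 / W with hν
    have hν0 : 0 < ν := by positivity
    have hfib : ∀ q ∈ I ×ˢ J, (((S4.filter fun m => g m = q).card : ℕ) : ℝ) ≤
        1 + 4 * W * (M * τ ^ 23) := by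
      intro q _
      have h1 := fiber_card (K := K) (X := X) ha.1 hK0 hdec M hup (S4.filter fun m => g m = q)
        (q.1.1 ^ 4 * q.1.2 ^ 5) (q.2.1 ^ 4 * q.2.2 ^ 5) η H ν hν0 hη1 (by
          rw [hH, hη, hν]
          have : 3 * ((M : ℝ) * τ ^ 3 / W) ^ 2 * (W ^ 2 / 3 * τ ^ 46) = M ^ 2 * τ ^ 52 := by
            field_simp
          rw [this]) (by
          intro m hm
          obtain ⟨hm4, hgm⟩ := Finset.mem_filter.1 hm
          rw [hS4, Finset.mem_filter] at hm4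
          refine ⟨Finset.mem_range.1 hm4.1, ?_, ?_, hm4.2.2, ?_⟩
          · rw [← hgm]
          · rw [← hgm]
          · refine le_trans (pow_le_pow_left₀ hν0.le ?_ 3) (hlow m)
            rw [hν]
            have := hm4.2.1.1
            gcongr
            linarith)
      have h2 : Real.sqrt (7 * η) ≤ 2 * W * τ ^ 23 := by
        rw [Real.sqrt_le_left (by positivity), hη]
        have : 0 < τ ^ 46 := by positivity
        have h3 : (2 * W * τ ^ 23) ^ 2 = 4 * W ^ 2 * τ ^ 46 := by ring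
        rw [h3]
        have : 0 < W ^ 2 * τ ^ 46 := by positivity
        nlinarith
      have h4 : ((M : ℝ) + 1) * Real.sqrt (7 * η) ≤ (2 * M) * (2 * W * τ ^ 23) :=
        mul_le_mul (by linarith) h2 (Real.sqrt_nonneg _) (by positivity)
      calc _ ≤ 1 + ((M : ℝ) + 1) * Real.sqrt (7 * η) := h1
        _ ≤ 1 + (2 * M) * (2 * W * τ ^ 23) := by linarith
        _ = _ := by ring
    have h5 : (S4.card : ℝ) ≤ (I.card * J.card : ℝ) * (1 + 4 * W * (M * τ ^ 23)) := by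
      rw [Finset.card_eq_sum_card_fiberwise hmaps, Nat.cast_sum]
      refine (Finset.sum_le_sum hfib).trans ?_
      rw [Finset.sum_const, nsmul_eq_mul, Finset.card_product, Nat.cast_mul]
    have h6 : (I.card * J.card : ℝ) * τ ^ 20 ≤ W ^ 2 := by
      calc (I.card * J.card : ℝ) * τ ^ 20 = (I.card * τ ^ 10) * (J.card * τ ^ 10) := by ring
        _ ≤ W * W := mul_le_mul hIc' hJc' (by positivity) hW0.le
        _ = _ := by ring
    have h7 : 1 ≤ (M : ℝ) * τ ^ 23 := by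
      refine hMτ.trans (mul_le_mul_of_nonneg_left ?_ hM0.le)
      exact pow_le_pow_of_le_one hτ0.le hτ1 (by norm_num)
    have h8 : (S4.card : ℝ) * τ ^ 20 ≤ (W ^ 2 + 4 * W ^ 3) * (M * τ ^ 3) * τ ^ 20 := by
      calc (S4.card : ℝ) * τ ^ 20 ≤
            ((I.card * J.card : ℝ) * (1 + 4 * W * (M * τ ^ 23))) * τ ^ 20 :=
            mul_le_mul_of_nonneg_right h5 (by positivity)
        _ = ((I.card * J.card : ℝ) * τ ^ 20) * (1 + 4 * W * (M * τ ^ 23)) := by ring
        _ ≤ W ^ 2 * (1 + 4 * W * (M * τ ^ 23)) :=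
            mul_le_mul_of_nonneg_right h6 (by positivity)
        _ ≤ W ^ 2 * (M * τ ^ 23 + 4 * W * (M * τ ^ 23)) :=
            mul_le_mul_of_nonneg_left (by linarith) (by positivity)
        _ = _ := by ring
    exact le_of_mul_le_mul_right h8 (by positivity)
  have : (2 + 3 * W + 2 * W ^ 2 + 4 * W ^ 3) * (M * τ ^ 3) = 2 * (M * τ ^ 3) + (W * (M * τ ^ 3) +
      (2 * W * (M * τ ^ 3) + (W ^ 2 + 4 * W ^ 3) * (M * τ ^ 3))) + W ^ 2 * (M * τ ^ 3) := by ring
  rw [this]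
  have : 0 ≤ W ^ 2 * (M * τ ^ 3) := by positivity
  linarith

end Pool.Agent.W4helper65.P3
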