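import Pool.Agent.W4helper65.P3.Dec

/-!
# Gaps between 3-powerful numbers: counting
-/

set_option autoImplicit false

namespace Pool.Agent.W4helper65.P3

open Finset

/-- the weights -/
noncomputable def hw (q : ℕ × ℕ) : ℝ := ((q.1 : ℝ) ^ (-(40 / 39) : ℝ)) * ((q.2 : ℝ) ^ (-(50 / 39) : ℝ))

theorem hw_nonneg (q : ℕ × ℕ) : 0 ≤ hw q := by
  unfold hw
  positivity

theorem hw_summable : Summable hw := by
  have h1 : Summable (fun n : ℕ => (n : ℝ) ^ (-(40 / 39) : ℝ)) :=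
    Real.summable_nat_rpow.2 (by norm_num)
  have h2 : Summable (fun n : ℕ => (n : ℝ) ^ (-(50 / 39) : ℝ)) :=
    Real.summable_nat_rpow.2 (by norm_num)
  exact h1.mul_of_nonneg h2 (fun n => by positivity) (fun n => by positivity)

theorem hw_eq {y z : ℕ} :
    hw (y, z) = ((y ^ 4 * z ^ 5 : ℕ) : ℝ) ^ (-(10 / 39) : ℝ) := by
  push_cast
  rw [Real.mul_rpow (by positivity) (by positivity), ← Real.rpow_natCast, ← Real.rpow_natCast,
    ← Real.rpow_mul (Nat.cast_nonneg y), ← Real.rpow_mul (Nat.cast_nonneg z)]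
  unfold hw
  norm_num

theorem fiber_bound {x y z : ℕ} {L τ : ℝ} (hy : 0 < y) (hz : 0 < z)
    (hL : 0 ≤ L) (hτ : 0 < τ) (hn : ((x ^ 3 * (y ^ 4 * z ^ 5) : ℕ) : ℝ) ≤ L ^ 3)
    (hk : 1 ≤ ((y ^ 4 * z ^ 5 : ℕ) : ℝ) * τ ^ 39) : (x : ℝ) ≤ L * τ ^ 3 * hw (y, z) := by
  have hyR : (0 : ℝ) < y := by exact_mod_cast hy
  have hzR : (0 : ℝ) < z := by exact_mod_cast hz
  rw [hw_eq]
  set k : ℝ := ((y ^ 4 * z ^ 5 : ℕ) : ℝ) with hkdef
  have hk0 : 0 < k := by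
    rw [hkdef]
    push_cast
    positivity
  have e2 : k ^ (-(1 / 13) : ℝ) ≤ τ ^ 3 := by
    have h1 : (1 : ℝ) ≤ (k * τ ^ 39) ^ (1 / 13 : ℝ) := Real.one_le_rpow hk (by norm_num)
    rw [Real.mul_rpow hk0.le (by positivity), ← Real.rpow_natCast τ 39, ← Real.rpow_mul hτ.le] at h1
    have h0 : ((39 : ℕ) : ℝ) * (1 / 13) = ((3 : ℕ) : ℝ) := by norm_num
    rw [h0, Real.rpow_natCast] at h1
    rw [Real.rpow_neg hk0.le]
    have h2 : 0 < k ^ (1 / 13 : ℝ) := Real.rpow_pos_of_pos hk0 _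
    rw [inv_le_iff_one_le_mul₀ h2]
    linarith
  have e3 : (x : ℝ) ≤ L * k ^ (-(1 / 3) : ℝ) := by
    have h3 : (x : ℝ) ^ 3 ≤ (L * k ^ (-(1 / 3) : ℝ)) ^ 3 := by
      rw [mul_pow, ← Real.rpow_natCast (k ^ (-(1 / 3) : ℝ)) 3, ← Real.rpow_mul hk0.le]
      norm_num
      rw [Real.rpow_neg_one, ← div_eq_mul_inv, le_div_iff₀ hk0]
      have : ((x ^ 3 * (y ^ 4 * z ^ 5) : ℕ) : ℝ) = (x : ℝ) ^ 3 * k := by
        rw [hkdef]
        push_cast
        ring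
      rw [this] at hn
      exact hn
    exact le_of_pow_le_pow_left₀ three_ne_zero (by positivity) h3
  have e4 : k ^ (-(1 / 3) : ℝ) = k ^ (-(1 / 13) : ℝ) * k ^ (-(10 / 39) : ℝ) := by
    rw [← Real.rpow_add hk0]
    norm_num
  calc (x : ℝ) ≤ L * k ^ (-(1 / 3) : ℝ) := e3
    _ = L * k ^ (-(1 / 13) : ℝ) * k ^ (-(10 / 39) : ℝ) := by rw [e4]; ring
    _ ≤ L * τ ^ 3 * k ^ (-(10 / 39) : ℝ) := by
      refine mul_le_mul_of_nonneg_right (mul_le_mul_of_nonneg_left e2 hL) ?_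
      positivity

/-- the number of pairs `(y, z)` with small `y⁴ z⁵` -/
theorem few {I : Finset (ℕ × ℕ)} {τ : ℝ} (hτ : 0 < τ)
    (hI : ∀ q ∈ I, 0 < q.1 ∧ 0 < q.2 ∧ ((q.1 ^ 4 * q.2 ^ 5 : ℕ) : ℝ) * τ ^ 39 < 1) :
    (I.card : ℝ) * τ ^ 10 ≤ ∑' q, hw q := by
  have h1 : ∀ q ∈ I, τ ^ 10 ≤ hw q := by
    rintro ⟨y, z⟩ hq
    obtain ⟨hy, hz, hk⟩ := hI _ hq
    have hyR : (0 : ℝ) < y := by exact_mod_cast hy
    have hzR : (0 : ℝ) < z := by exact_mod_cast hz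
    rw [hw_eq]
    simp only at hk
    set k : ℝ := ((y ^ 4 * z ^ 5 : ℕ) : ℝ) with hkdef
    have hk0 : 0 < k := by
      rw [hkdef]
      push_cast
      positivity
    have h1 : (k * τ ^ 39) ^ (10 / 39 : ℝ) ≤ 1 :=
      Real.rpow_le_one (by positivity) hk.le (by norm_num)
    rw [Real.mul_rpow hk0.le (by positivity), ← Real.rpow_natCast τ 39, ← Real.rpow_mul hτ.le] at h1
    have h0 : ((39 : ℕ) : ℝ) * (10 / 39) = ((10 : ℕ) : ℝ) := by norm_num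
    rw [h0, Real.rpow_natCast] at h1
    rw [Real.rpow_neg hk0.le]
    have h2 : 0 < k ^ (10 / 39 : ℝ) := Real.rpow_pos_of_pos hk0 _
    rw [le_inv_comm₀ (by positivity) h2, ← one_div, le_div_iff₀ (by positivity)]
    exact h1
  calc (I.card : ℝ) * τ ^ 10 = ∑ _q ∈ I, τ ^ 10 := by rw [Finset.sum_const, nsmul_eq_mul]
    _ ≤ ∑ q ∈ I, hw q := Finset.sum_le_sum h1
    _ ≤ _ := hw_summable.sum_le_tsum _ fun q _ => hw_nonneg q

/-- the number of `3`-powerful numbers with a large non-cube part -/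
theorem tail (T : Finset ℕ) (L τ : ℝ) (hL : 0 ≤ L) (hτ : 0 < τ)
    (h : ∀ n ∈ T, ∃ x y z : ℕ, 0 < x ∧ 0 < y ∧ 0 < z ∧ n = x ^ 3 * (y ^ 4 * z ^ 5) ∧
      1 ≤ ((y ^ 4 * z ^ 5 : ℕ) : ℝ) * τ ^ 39 ∧ (n : ℝ) ≤ L ^ 3) :
    (T.card : ℝ) ≤ (∑' q, hw q + 1) * (L * τ ^ 3) := by
  classical
  choose! fx fy fz hx hy hz hn hk hl using h
  have h1 : (T.card : ℝ) = ∑ q ∈ T.image (fun n => (fy n, fz n)),
      (((T.filter fun n => (fy n, fz n) = q).card : ℕ) : ℝ) := by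
    rw [← Nat.cast_sum, ← Finset.card_eq_sum_card_image]
  have h2 : ∀ q ∈ T.image (fun n => (fy n, fz n)),
      (((T.filter fun n => (fy n, fz n) = q).card : ℕ) : ℝ) ≤ L * τ ^ 3 * hw q := by
    intro q hq
    obtain ⟨n0, hn0, rfl⟩ := Finset.mem_image.1 hq
    set B : ℝ := L * τ ^ 3 * hw (fy n0, fz n0) with hB
    have hB0 : 0 ≤ B := by
      have := hw_nonneg (fy n0, fz n0)
      positivity
    have h3 : (T.filter fun n => (fy n, fz n) = (fy n0, fz n0)).card ≤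
        (Finset.Icc 1 ⌊B⌋₊).card := by
      refine Finset.card_le_card_of_injOn fx ?_ ?_
      · intro n hn1
        obtain ⟨hnT, he⟩ := Finset.mem_filter.1 hn1
        have hey : fy n = fy n0 := congrArg Prod.fst he
        have hez : fz n = fz n0 := congrArg Prod.snd he
        rw [Finset.coe_Icc, Set.mem_Icc]
        refine ⟨hx n hnT, Nat.le_floor ?_⟩
        have := fiber_bound (x := fx n) (y := fy n) (z := fz n) (hy n hnT) (hz n hnT) hL hτ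
          (by rw [← hn n hnT]; exact hl n hnT) (hk n hnT)
        rw [hey, hez] at this
        exact this
      · intro n hn1 n' hn1' hxx
        obtain ⟨hnT, he⟩ := Finset.mem_filter.1 hn1
        obtain ⟨hnT', he'⟩ := Finset.mem_filter.1 hn1'
        have hey : fy n = fy n' := (congrArg Prod.fst he).trans (congrArg Prod.fst he').symm
        have hez : fz n = fz n' := (congrArg Prod.snd he).trans (congrArg Prod.snd he').symm
        rw [hn n hnT, hn n' hnT', hxx, hey, hez]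
    rw [Nat.card_Icc, Nat.add_sub_cancel] at h3
    calc (((T.filter fun n => (fy n, fz n) = (fy n0, fz n0)).card : ℕ) : ℝ) ≤ (⌊B⌋₊ : ℝ) := by
          exact_mod_cast h3
      _ ≤ B := Nat.floor_le hB0
  rw [h1]
  calc _ ≤ ∑ q ∈ T.image (fun n => (fy n, fz n)), L * τ ^ 3 * hw q := Finset.sum_le_sum h2
    _ = L * τ ^ 3 * ∑ q ∈ T.image (fun n => (fy n, fz n)), hw q := by rw [Finset.mul_sum]
    _ ≤ L * τ ^ 3 * (∑' q, hw q) := by
      refine mul_le_mul_of_nonneg_left ?_ (by positivity)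
      exact hw_summable.sum_le_tsum _ fun q _ => hw_nonneg q
    _ ≤ _ := by
      have : 0 ≤ L * τ ^ 3 := by positivity
      nlinarith

end Pool.Agent.W4helper65.P3
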